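import Pool.Agent.H48.RN.Stmts2

set_option autoImplicit false
set_option linter.unusedSectionVars false

namespace Pool.RN

open Polynomial

theorem s_PTG {F k : Type} [Field F] [Fintype F] [Field k] [Algebra F k] [IsAlgClosed k]
    [Algebra.IsAlgebraic F k] (M : F[X]) (Y : (EE k)[X]) (hM : M.Monic) (hm : 1 ≤ M.natDegree) (hY : Good M Y)
    (hEVA : S_EVA F k) : S_PTG M Y := by
  intro x1 Y1 hpt g hg
  obtain ⟨hg1, hg2, hg3⟩ := mem_HH.1 hg
  obtain ⟨hd, hrel⟩ := hpt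
  obtain ⟨e1, -, e3⟩ := hEVA M hM hm k x1 Y1 g hd
  obtain ⟨-, -, f3⟩ := hEVA M hM hm (EE k) (xx F k) Y g hY.sol.deg
  refine ⟨e1, fun P hP => ?_⟩
  rw [e3]
  apply hrel
  rw [← f3]
  exact hg3 P hP

end Pool.RN
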