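import Pool.Agent.H48.RN.Stmts2

set_option autoImplicit false
set_option linter.unusedSectionVars false

namespace Pool.RN

open Polynomial

theorem TRX_xx_ne (F k : Type) [Field F] [Fintype F] [Field k] [Algebra F k] : xx F k ≠ 0 := by
  unfold xx
  rw [neg_ne_zero]
  intro h
  have h1 : cf (ww k (1 - (Fintype.card F : ℤ))) (1 - (Fintype.card F : ℤ)) = 1 :=
    HahnSeries.coeff_single_same (Γ := ℤ) (R := k) _ _
  rw [h] at h1
  have h2 : cf (0 : EE k) (1 - (Fintype.card F : ℤ)) = 0 := HahnSeries.coeff_zero (Γ := ℤ) (R := k)
  rw [h2] at h1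
  exact zero_ne_one h1

theorem TRX_od_neg {k : Type} [Field k] (x : EE k) : od (-x) = od x := by
  by_cases hx : x = 0
  · rw [hx, neg_zero]
  · have h1 : -x = (-1 : k) • x := by rw [neg_smul, one_smul]
    rw [h1, od_smul (by norm_num)]

theorem TRX_od_xx (F k : Type) [Field F] [Fintype F] [Field k] [Algebra F k] :
    od (xx F k) = 1 - (Fintype.card F : ℤ) := by
  unfold xx
  rw [TRX_od_neg, od_ww]

theorem TRX_od_pow (F k : Type) [Field F] [Fintype F] [Field k] [Algebra F k] (n : ℕ) :
    od (xx F k ^ n) = -(((Fintype.card F - 1) * n : ℕ) : ℤ) := by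
  have hq : 1 ≤ Fintype.card F := Fintype.card_pos
  induction n with
  | zero =>
    have h1 : (1 : EE k) = algebraMap k (EE k) 1 := (map_one _).symm
    rw [pow_zero, h1, od_algebraMap]
    simp
  | succ n ih =>
    rw [pow_succ, od_mul (pow_ne_zero _ (TRX_xx_ne F k)) (TRX_xx_ne F k), ih, TRX_od_xx]
    push_cast [Nat.cast_sub hq]
    ring

theorem s_TRX (F k : Type) [Field F] [Fintype F] [Field k] [Algebra F k] : S_TRX F k := by
  have hq : 1 ≤ Fintype.card F := Fintype.card_pos
  have hq2 : 1 < Fintype.card F := Fintype.one_lt_card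
  intro p
  induction hn : p.natDegree using Nat.strong_induction_on generalizing p with
  | _ n ih =>
    intro hp
    set t : EE k := p.leadingCoeff • xx F k ^ n with ht
    have ht0 : t ≠ 0 := by
      rw [ht]
      exact smul_ne_zero (leadingCoeff_ne_zero.2 hp) (pow_ne_zero _ (TRX_xx_ne F k))
    have hodt : od t = -(((Fintype.card F - 1) * n : ℕ) : ℤ) := by
      rw [ht, od_smul (leadingCoeff_ne_zero.2 hp), TRX_od_pow]
    have hdec : aeval (xx F k) p = aeval (xx F k) p.eraseLead + t := by
      conv_lhs => rw [← p.eraseLead_add_C_mul_X_pow]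
      rw [map_add, map_mul, aeval_C, map_pow, aeval_X, ht, hn, Algebra.smul_def]
    by_cases he : p.eraseLead = 0
    · rw [hdec, he, map_zero, zero_add]
      exact ⟨ht0, hodt⟩
    · have hlt : p.eraseLead.natDegree < n := by
        rcases Nat.eq_zero_or_pos n with h0 | h0
        · exfalso
          apply he
          have h1 : p = C (p.coeff 0) := eq_C_of_natDegree_eq_zero (hn.trans h0)
          rw [h1, eraseLead_C]
        · have := eraseLead_natDegree_le p
          omega
      obtain ⟨a1, a2⟩ := ih _ hlt p.eraseLead rfl he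
      have hod : od t < od (aeval (xx F k) p.eraseLead) := by
        rw [a2, hodt]
        have : (Fintype.card F - 1) * p.eraseLead.natDegree < (Fintype.card F - 1) * n :=
          Nat.mul_lt_mul_of_pos_left hlt (by omega)
        have : (((Fintype.card F - 1) * p.eraseLead.natDegree : ℕ) : ℤ) <
            (((Fintype.card F - 1) * n : ℕ) : ℤ) := by exact_mod_cast this
        omega
      set s := aeval (xx F k) p.eraseLead with hs
      have hcf : cf (s + t) (od t) ≠ 0 := by
        rw [cf_add, cf_lt hod, zero_add]
        exact cf_od ht0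
      have hne : s + t ≠ 0 := by
        intro h
        rw [h] at hcf
        exact hcf (HahnSeries.coeff_zero (Γ := ℤ) (R := k))
      rw [hdec]
      refine ⟨hne, ?_⟩
      rw [← hodt]
      apply le_antisymm
      · by_contra hlt'
        push Not at hlt'
        exact hcf (cf_lt hlt')
      · have := od_add hne
        rw [min_eq_right hod.le] at this
        exact this

end Pool.RN
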